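import Pool.Agent.Work.MP_ad6a67_lc.Decide

open Pool.Agent.Work.MP_ad6a67_lc

/-- For every choice `S` of the optional parts (Con), EXT, NOR (and of the convention `0 ≠ 1`),
the system PWRCC-Bound extended by `S` is consistent and the set of Goedel numbers of its
theorems is computable. -/
theorem Pool.Agent.Results.MP_ad6a67_lc.Decidable.result (S : Set Opt) :
    (∃ φ : Form, ¬ Thm S φ) ∧
      ComputablePred (fun n : ℕ => ∃ φ : Form, φ.code = n ∧ Thm S φ) :=
  ⟨⟨_, consistent S⟩, decidable_thm S⟩
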